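import Pool.Agent.H598.AA.Last

/-!
# Almost all polynomials are sums of `k + 1` `k`-th powers

Let `F` be a finite field with `q` elements, of characteristic larger than `k`, where
`q ≥ (8k) ^ (k 2 ^ k)`. Almost all polynomials over `F` are strict sums of `k + 1` `k`-th powers,
almost none of them is a strict sum of `k - 1` `k`-th powers, and the Hardy and Littlewood
asymptotic formula in `s` variables holds for almost all polynomials as soon as `s ≥ k + 1`.
-/

namespace Pool.Agent.Results.MP_45c923_nt.FunctionFieldAlmostAll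

open Polynomial
open Pool.Agent.H598.FQ Pool.Agent.H598.AS Pool.Agent.H598.AA

/-- `m` is a strict sum of `s` `k`-th powers: `m = ∑ x i ^ k` with `k deg (x i) < deg m + k`. -/
def StrictSum (F : Type*) [Field F] (k s : ℕ) (m : F[X]) : Prop :=
  ∃ x : Fin s → F[X], (∀ i, k * (x i).natDegree < m.natDegree + k) ∧ ∑ i, x i ^ k = m

/-- The number of strict representations of `m` as a sum of `s` `k`-th powers. -/
noncomputable def R (F : Type*) [Field F] (k s : ℕ) (m : F[X]) : ℕ :=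
  Nat.card {x : Fin s → F[X] // (∀ i, k * (x i).natDegree < m.natDegree + k) ∧
    ∑ i, x i ^ k = m}

/-- The number of representations of `m` as a sum of `s` `k`-th powers of polynomials of degree at
most `P`, one of them of degree `P`. -/
noncomputable def Rmax (F : Type*) [Field F] (k s P : ℕ) (m : F[X]) : ℕ :=
  Nat.card {x : Fin s → F[X] // (∀ i, (x i).natDegree ≤ P) ∧ (∃ i, (x i).natDegree = P) ∧
    ∑ i, x i ^ k = m}

/-- The number of solutions of `∑ z i ^ k ≡ m` modulo `G`. -/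
noncomputable def M (F : Type*) [Field F] (k s : ℕ) (G m : F[X]) : ℕ :=
  Nat.card {z : Fin s → F[X] // (∀ i, (z i).degree < G.degree) ∧ G ∣ ∑ i, z i ^ k - m}

/-- The density at infinity: the number of nonzero `c` in `F ^ s` with `∑ c i ^ k = v`. -/
noncomputable def kappa (F : Type*) [Field F] (k s : ℕ) (v : F) : ℕ :=
  Nat.card {c : Fin s → F // (∃ i, c i ≠ 0) ∧ ∑ i, c i ^ k = v}

/-- Let `k ≥ 2` and let `F` be a finite field of characteristic larger than `k` with
`q ≥ (8k) ^ (k 2 ^ k)` elements.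

(1) Almost all polynomials are strict sums of `k + 1` `k`-th powers: the number of the exceptions of
degree at most `n` is `o(q ^ (n + 1))`.

(2) Almost no polynomials are strict sums of `k - 1` `k`-th powers.

(3) Let `s ≥ k + 1`. For every `ε > 0` there is `c > 0` such that for large `n` all but
`ε q ^ (n + 1)` of the polynomials `m` of degree at most `n` have at least `c q ^ ((s - k) ⌊deg m / k⌋)`
strict representations.

(4) Let `s ≥ k + 1`. For every `ε > 0` there is `H` such that for all multiples `G` of `H` and all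
large `P` the number of representations of `m` as a sum of `s` `k`-th powers with maximal degree
`P` is `(kappa (m_{kP}) M(G, m) / |G| ^ (s - 1) + δ) q ^ ((s - k) P)` with `|δ| ≤ ε`, for all
polynomials `m` of degree at most `k P` with at most `ε q ^ (k P)` exceptions. -/
theorem result (k : ℕ) (hk : 2 ≤ k) (F : Type*) [Field F] [Fintype F]
    (hchar : k < ringChar F) (hq : (8 * k) ^ (k * 2 ^ k) ≤ Fintype.card F) :
    (∀ ε : ℝ, 0 < ε → ∃ N : ℕ, ∀ n, N ≤ n →
      ({m : F[X] | m.natDegree ≤ n ∧ ¬ StrictSum F k (k + 1) m}.ncard : ℝ)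
        ≤ ε * (Fintype.card F : ℝ) ^ (n + 1)) ∧
    (∀ ε : ℝ, 0 < ε → ∃ N : ℕ, ∀ n, N ≤ n →
      ({m : F[X] | m.natDegree ≤ n ∧ StrictSum F k (k - 1) m}.ncard : ℝ)
        ≤ ε * (Fintype.card F : ℝ) ^ (n + 1)) ∧
    (∀ s : ℕ, k + 1 ≤ s → ∀ ε : ℝ, 0 < ε → ∃ c : ℝ, 0 < c ∧ ∃ N : ℕ, ∀ n, N ≤ n →
      ({m : F[X] | m.natDegree ≤ n ∧
        (R F k s m : ℝ) < c * (Fintype.card F : ℝ) ^ ((s - k) * (m.natDegree / k))}.ncard : ℝ)
        ≤ ε * (Fintype.card F : ℝ) ^ (n + 1)) ∧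
    (∀ s : ℕ, k + 1 ≤ s → ∀ ε : ℝ, 0 < ε → ∃ H : F[X], H.Monic ∧
      ∀ G : F[X], G.Monic → H ∣ G → ∃ P₀ : ℕ, ∀ P, P₀ ≤ P →
      ({m : F[X] | m.natDegree ≤ k * P ∧
        ε < |(Rmax F k s P m : ℝ) / (Fintype.card F : ℝ) ^ ((s - k) * P)
          - (kappa F k s (m.coeff (k * P)) : ℝ)
            * ((M F k s G m : ℝ) / (Fintype.card F : ℝ) ^ ((s - 1) * G.natDegree))|}.ncard : ℝ)
        ≤ ε * (Fintype.card F : ℝ) ^ (k * P)) := by
  classical
  have hch : ∀ i : ℕ, 1 ≤ i → i ≤ k → ((i : ℕ) : F) ≠ 0 := by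
    intro i hi hik h0
    have h1 : ringChar F ∣ i := ringChar.dvd h0
    have h2 := Nat.le_of_dvd (by omega) h1
    omega
  have hbig := big_of_le hk hq
  obtain ⟨ψ, hψ⟩ : ∃ ψ : AddChar F ℂ, ψ ≠ 1 := by
    obtain ⟨ψ, hψ⟩ := (AddChar.exists_apply_ne_zero (α := F) (a := 1)).2 one_ne_zero
    exact ⟨ψ, fun h => hψ (by rw [h]; rfl)⟩
  -- sets and finsets
  have key : ∀ (n : ℕ) (Φ : F[X] → Prop),
      ({m : F[X] | m.natDegree ≤ n ∧ Φ m}.ncard : ℝ)
        = (((VF F (n + 1)).filter (fun m => Φ m)).card : ℝ) := by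
    intro n Φ
    have h1 : {m : F[X] | m.natDegree ≤ n ∧ Φ m}
        = (((VF F (n + 1)).filter (fun m => Φ m) : Finset F[X]) : Set F[X]) := by
      ext m
      rw [Set.mem_ofPred_eq, Finset.mem_coe, Finset.mem_filter, mem_VF, mem_V_succ_iff]
    rw [h1, Set.ncard_coe_finset]
  have hfin : ∀ (n : ℕ) (Φ : F[X] → Prop), {m : F[X] | m.natDegree ≤ n ∧ Φ m}.Finite := by
    intro n Φ
    apply (Finset.finite_toSet (VF F (n + 1))).subset
    intro m hm
    rw [Finset.mem_coe, mem_VF, mem_V_succ_iff]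
    exact hm.1
  have p3 : ∀ s : ℕ, k + 1 ≤ s → ∀ ε : ℝ, 0 < ε → ∃ c : ℝ, 0 < c ∧ ∃ N : ℕ, ∀ n, N ≤ n →
      ({m : F[X] | m.natDegree ≤ n ∧
        (R F k s m : ℝ) < c * (Fintype.card F : ℝ) ^ ((s - k) * (m.natDegree / k))}.ncard : ℝ)
        ≤ ε * (Fintype.card F : ℝ) ^ (n + 1) := by
    intro s hs ε hε
    obtain ⟨c, hc, N, hN⟩ := card_Ex_le hψ hk hch hbig hs hε
    refine ⟨c, hc, N, fun n hn => ?_⟩
    rw [key]
    refine le_trans (le_of_eq ?_) (hN n hn)
    congr 2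
  refine ⟨?_, ?_, p3, ?_⟩
  · intro ε hε
    obtain ⟨c, hc, N, hN⟩ := p3 (k + 1) le_rfl ε hε
    refine ⟨N, fun n hn => le_trans ?_ (hN n hn)⟩
    refine Nat.cast_le.2 (Set.ncard_le_ncard ?_ (hfin n _))
    intro m hm
    refine ⟨hm.1, ?_⟩
    have h2 : IsEmpty {x : Fin (k + 1) → F[X] // (∀ i, k * (x i).natDegree < m.natDegree + k) ∧
        ∑ i, x i ^ k = m} := ⟨fun x => hm.2 ⟨x.1, x.2⟩⟩
    have h3 : R F k (k + 1) m = 0 := by
      unfold R
      exact Nat.card_of_isEmpty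
    rw [h3, Nat.cast_zero]
    have hq0 : (0 : ℝ) < Fintype.card F := by exact_mod_cast Fintype.card_pos
    positivity
  · intro ε hε
    obtain ⟨N, hN⟩ := card_few (F := F) hk hε
    refine ⟨N, fun n hn => ?_⟩
    rw [key]
    refine le_trans (le_of_eq ?_) (hN n hn)
    congr 2
  · intro s hs ε hε
    obtain ⟨H, hH, h⟩ := almost_asymp hψ hk hch hbig hs hε
    refine ⟨H, hH, fun G hG hHG => ?_⟩
    obtain ⟨P₀, hP₀⟩ := h G hG hHG
    refine ⟨P₀, fun P hP => ?_⟩
    rw [key]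
    refine le_trans (le_of_eq ?_) (hP₀ P hP)
    congr 2

end Pool.Agent.Results.MP_45c923_nt.FunctionFieldAlmostAll
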